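import Pool.Agent.UL4.Defs
import Pool.Agent.UL3.Stmts

/-!
# Squad UL4: statements

One statement per row; every docstring contains a complete proof.
-/

set_option autoImplicit false

namespace Pool.Agent.UL4

open MeasureTheory Set Pool.Agent.UL3

/-! ### Block A: sections -/

/-- **TRN** (easy-medium, no hypotheses).  Translation.
PROOF.  Let `m`, `M` be the minimum and the maximum of the third coordinate on `K` (compact); `m < M` since `K` has interior points; `c = (0, 0, -m)`, `w = M - m`. If `(v, z)` is good for `K + c` then `(v, z - c)` is good for `K`: interiors are translated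
(`Homeomorph.addRight`), the volume is the same. -/
def TrnStmt : Prop :=
  ∀ K : Set E3, CB K → ∃ (c : E3) (w : ℝ), CB ((fun x => x + c) '' K) ∧ Ht ((fun x => x + c) '' K) w ∧
    (Good2 ((fun x => x + c) '' K) → Good2 K)

/-- **SCG** (easy-medium, no hypotheses).  Sections.
PROOF.  `p ↦ up p t` is an affine closed embedding. For `t ∈ [0, w]` the segment between a point of height `0` and a point of height `w` contains a point of height `t`. Outside: `Ht.rng`. Volume: `K` has interior points. -/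
def ScgStmt : Prop :=
  ∀ (K : Set E3) (w : ℝ), CB K → Ht K w → (∀ t, IsCompact (sec K t) ∧ Convex ℝ (sec K t)) ∧
    (∀ t ∈ Icc 0 w, (sec K t).Nonempty) ∧ (∀ t, t ∉ Icc 0 w → sec K t = ∅) ∧ 0 < V K

/-- **CCG** (medium, uses SCG).  Brunn-Minkowski for the sections.
PROOF.  As row CCV of UL3 (`Pool.Agent.Helper19_UL3.CCV`): for `s, t ∈ [0, w]`, `a + b = 1`: `a • sec K s + b • sec K t ⊆ sec K (a s + b t)`, all compact and nonempty, Brunn-Minkowski in the plane. -/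
def CcgStmt : Prop :=
  ∀ (K : Set E3) (w : ℝ), CB K → Ht K w →
    ConcaveOn ℝ (Icc 0 w) (fun t => Real.sqrt (al K t))

/-- **USC** (medium, no hypotheses).  The section areas are upper semicontinuous.
PROOF.  Let `t_n → t` with `al K (t_n) ≥ c`. For every `p`: `limsup 1_K (up p t_n) ≤ 1_K (up p t)` (`K` closed), all functions are bounded by the indicator of a fixed bounded set: reverse Fatou (`limsup_lintegral_le`). (Or: `sec K t` compact, `U` open with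
`sec K t ⊆ U`, `volume U ≤ volume (sec K t) + ε`; for `s` near `t`, `sec K s ⊆ U` by compactness of `K`.) -/
def UscStmt : Prop := ∀ K : Set E3, IsCompact K → UpperSemicontinuous (al K)

/-- **CNG** (easy-medium, uses CCG USC).  The profile is continuous.
PROOF.  A concave function on `[0, w]` is lower semicontinuous (`F t ≥` the linear interpolation between `F t₀` and the value at an end point, which tends to `F t₀`); `sqrt (al K)` is upper semicontinuous by USC. -/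
def CngStmt : Prop :=
  ∀ (K : Set E3) (w : ℝ), CB K → Ht K w →
    ContinuousOn (fun t => Real.sqrt (al K t)) (Icc 0 w)

/-! ### Block B: the section of the difference body -/

/-- **RSA** (medium, no hypotheses).  A covariogram integral.
PROOF.  Tonelli: the volume of `{y ∈ K | y - up x 0 ∈ K}` is `∫ volume {p | p ∈ sec K t ∧ p - x ∈ sec K t} dt` (see `Pool.Agent.Helper34_UL3.FUB` for the measure preserving map `E3 ≃ (ℝ × ℝ) × ℝ`); exchange the integrals: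
`∫_t ∫_p 1[p ∈ sec K t] ∫_x 1[p - x ∈ sec K t] = ∫_t (volume (sec K t)) ^ 2`. -/
def RsaStmt : Prop :=
  ∀ K : Set E3, IsCompact K →
    ∫⁻ x : ℝ × ℝ, (volume : Measure E3) {y | y ∈ K ∧ y - up x 0 ∈ K} =
      ∫⁻ t : ℝ, ((volume : Measure (ℝ × ℝ)) (sec K t)) ^ 2

/-- **RSB** (easy-medium, no hypotheses).  Rogers-Shephard.
PROOF.  `k ∈ K` with `k - up p 0 ∈ K`. The homothetic copy `(1 - θ) K + θ k` is in `K` and its translate by `- up (θ p) 0` is `(1 - θ) K + θ (k - up p 0)`, also in `K`. Its volume is `(1 - θ) ^ 3 V K` (`Measure.addHaar_smul`, translation). -/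
def RsbStmt : Prop :=
  ∀ K : Set E3, CB K → ∀ p ∈ dif K, ∀ θ ∈ Icc (0 : ℝ) 1,
    (1 - θ) ^ 3 * V K ≤ V {y | y ∈ K ∧ y - up (θ • p) 0 ∈ K}

/-- **DFC** (easy-medium, no hypotheses).  The section of the difference body.
PROOF.  `dif K` is the preimage of the compact convex symmetric set `K - K` under `p ↦ up p 0`. If `x` is an interior point of `K`, then `x - up p 0 ∈ K` for small `p`. `hdif K = (1/2) • dif K`. -/
def DfcStmt : Prop :=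
  ∀ K : Set E3, CB K → PB (dif K) ∧ PB (hdif K) ∧ ar (dif K) = 4 * ar (hdif K)

/-- **RSC** (medium, uses RSA RSB DFC).  The area of the section of the difference body.
PROOF.  Let `S = dif K`, `g x = V {y ∈ K | y - up x 0 ∈ K}`. For every `x`: `∫_0^1 3 (1 - θ)^2 1[x ∈ θ S] dθ * V ≤ g x`: the set of the `θ ∈ (0, 1]` with `x ∈ θ S` is an interval `[θ₀, 1]` or empty or `(0,1]` (`S` compact, convex, `0 ∈ S`), and RSB at `θ₀` (all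
`θ` of the set): `∫_θ₀^1 3 (1 - θ)^2 = (1 - θ₀)^3`. Integrate over `x` (Tonelli): `∫ g ≥ V ∫_0^1 3 (1 - θ)^2 θ^2 dθ * |S| = V |S| / 10`. RSA: `∫ g = ∫ (al K t)^2` (finite: bounded with bounded support). -/
def RscStmt : Prop :=
  ∀ K : Set E3, CB K → Integrable (fun t => al K t ^ 2) ∧
    V K * ar (dif K) ≤ 10 * ∫ t, al K t ^ 2

/-- **DSJ** (easy-medium, no hypotheses).  Horizontal translations.
PROOF.  Let `q = m a + n b`. If `y` and `y - up (2 q) 0` are both interior points of `K`, then `y + up e 0 ∈ K` for all small `e ∈ ℝ × ℝ`, so `2 q + e ∈ dif K` for all small `e`, and `q` is an interior point of `hdif K`: contradiction to `Adm2`. -/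
def DsjStmt : Prop :=
  ∀ K : Set E3, CB K → ∀ a b : ℝ × ℝ, Adm2 (hdif K) a b → ∀ m n : ℤ, (m ≠ 0 ∨ n ≠ 0) →
    Disjoint (interior K)
      ((fun x => x + up ((2 : ℝ) • ((m : ℝ) • a + (n : ℝ) • b)) 0) '' interior K)

/-! ### Block C: one variable -/

/-- **BER** (medium-strong, no hypotheses).  Berwald's inequality.
PROOF.  Scale so that `∫ F^2 = 1` (`F = 0` is trivial). Let `M` be the maximum of `F`, `ℓ r = volume {t ∈ [0,1] | r ≤ F t}` for `0 ≤ r ≤ M`: `ℓ 0 = 1`, `ℓ` is concave on `[0,M]` (`{F ≥ a r + b r'} ⊇ a {F ≥ r} + b {F ≥ r'}`, intervals). Layer cake: `∫ F^2 = ∫_0^M 2 r ℓ r`,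
`∫ F^4 = ∫_0^M 4 r^3 ℓ r`. `ℓ r ≥ 1 - r/M`, so `1 ≥ M^2/3`, `M ≤ N = sqrt 3`. Put `ℓ = 0` on `(M, N]`, `d r = ℓ r - (1 - r/N)`: `∫_0^N 2 r d = 1 - 1 = 0`, `d 0 = 0`, `d` is concave on `[0,M]` and `≤ 0` on `(M, N]`; so there is `r₀` with `d ≥ 0` on `[0, r₀)` and `d ≤ 0` on
`(r₀, N]`. Then `∫ 4 r^3 d = ∫ 2 r d * 2 r^2 ≤ 2 r₀^2 ∫ 2 r d = 0`, `∫ F^4 ≤ ∫_0^N 4 r^3 (1 - r/N) = N^4/5 = 9/5`. -/
def BerStmt : Prop :=
  ∀ F : ℝ → ℝ, ContinuousOn F (Icc 0 1) → ConcaveOn ℝ (Icc 0 1) F → (∀ t ∈ Icc (0 : ℝ) 1, 0 ≤ F t) →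
    ∫ t in (0 : ℝ)..1, F t ^ 4 ≤ 9 / 5 * (∫ t in (0 : ℝ)..1, F t ^ 2) ^ 2

/-- **SEG** (easy-medium, no hypotheses).  One segment.
PROOF.  `c < d` (else trivial). `L t = p + (q - p) (t - c)/(d - c) ≤ F t` (concavity), `0 ≤ L ≤ ρ`, `F ≤ M`. `∫ L^2 = (d-c)(p^2+pq+q^2)/3`, `∫ L^4 = (d-c)(p^4+p^3q+p^2q^2+pq^3+q^4)/5`. `F^4 - L^4 = (F^2 - L^2)(F^2 + L^2) ≤ (F^2 - L^2)(M^2 + ρ^2)`. -/
def SegStmt : Prop :=
  ∀ (F : ℝ → ℝ) (c d p q M ρ : ℝ), c ≤ d → ContinuousOn F (Icc c d) → ConcaveOn ℝ (Icc c d) F →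
    0 ≤ p → 0 ≤ q → p ≤ F c → q ≤ F d → p ≤ ρ → q ≤ ρ → (∀ t ∈ Icc c d, F t ≤ M) →
    (d - c) * (p ^ 2 + p * q + q ^ 2) / 3 ≤ ∫ t in c..d, F t ^ 2 ∧
    ∫ t in c..d, F t ^ 4 ≤ (d - c) * (p ^ 4 + p ^ 3 * q + p ^ 2 * q ^ 2 + p * q ^ 3 + q ^ 4) / 5 +
      (M ^ 2 + ρ ^ 2) * ((∫ t in c..d, F t ^ 2) - (d - c) * (p ^ 2 + p * q + q ^ 2) / 3)

/-- **MAS** (easy-medium, uses SEG).  The mass from below.
PROOF.  SEG (first part, `M` an upper bound of `F`, `ρ` large) on `[0,l'']`, `[l'',l']`, `[l',t]`, `[t,l'+1/2]`, `[l'+1/2,l''+x]`, `[l''+x,1]` with the values `0, β, ρ, m, ρ, β, 0`. -/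
def MasStmt : Prop :=
  ∀ (F : ℝ → ℝ) (l'' l' t x β ρ m : ℝ), ContinuousOn F (Icc 0 1) → ConcaveOn ℝ (Icc 0 1) F →
    (∀ t ∈ Icc (0 : ℝ) 1, 0 ≤ F t) → 0 ≤ l'' → l'' ≤ l' → l' ≤ t → t ≤ l' + 1 / 2 →
    l' + 1 / 2 ≤ l'' + x → l'' + x ≤ 1 → 0 ≤ β → 0 ≤ ρ → 0 ≤ m → β ≤ F l'' → ρ ≤ F l' → m ≤ F t →
    ρ ≤ F (l' + 1 / 2) → β ≤ F (l'' + x) →
    (m ^ 2 + m * ρ + ρ ^ 2) / 6 + (x - 1 / 2) * (ρ ^ 2 + ρ * β + β ^ 2) / 3 + (1 - x) * β ^ 2 / 3 ≤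
      ∫ t in (0 : ℝ)..1, F t ^ 2

/-- **TBD** (easy-medium, uses SEG).  The fourth moment from above.
PROOF.  SEG (second part) on `[0,l'']`, `[l'',l']`, `[l',l'+1/2]`, `[l'+1/2,l''+x]`, `[l''+x,1]` with the values `0, β, ρ, ρ, β, 0`. -/
def TbdStmt : Prop :=
  ∀ (F : ℝ → ℝ) (l'' l' x β ρ M : ℝ), ContinuousOn F (Icc 0 1) → ConcaveOn ℝ (Icc 0 1) F →
    (∀ t ∈ Icc (0 : ℝ) 1, 0 ≤ F t ∧ F t ≤ M) → 0 ≤ l'' → l'' ≤ l' →
    l' + 1 / 2 ≤ l'' + x → l'' + x ≤ 1 → 0 ≤ β → β ≤ ρ → β ≤ F l'' → ρ ≤ F l' →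
    ρ ≤ F (l' + 1 / 2) → β ≤ F (l'' + x) →
    ∫ t in (0 : ℝ)..1, F t ^ 4 ≤ ρ ^ 4 / 2 +
      (x - 1 / 2) * (ρ ^ 4 + ρ ^ 3 * β + ρ ^ 2 * β ^ 2 + ρ * β ^ 3 + β ^ 4) / 5 +
      (1 - x) * β ^ 4 / 5 +
      (M ^ 2 + ρ ^ 2) * ((∫ t in (0 : ℝ)..1, F t ^ 2) - ρ ^ 2 / 2 -
        (x - 1 / 2) * (ρ ^ 2 + ρ * β + β ^ 2) / 3 - (1 - x) * β ^ 2 / 3)

/-- **PCK** (easy-medium, no hypotheses).  Two low points or a high window.
PROOF.  `I = {t ∈ [0,1] | r ≤ F t}` is compact and convex. Empty: `s = x/2`. `I = [l₀, r₀]` with `r₀ - l₀ ≥ x`: second alternative with `l = l₀`. `r₀ - l₀ < x`: if `l₀ = 0`, `s = (r₀ + x)/2`; if `l₀ > 0` and `r₀ - x < x`: `s ∈ (max 0 (r₀ - x), min l₀ x)`; otherwise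
`r₀ = 1`, `x = 1/2`, `l₀ > 1/2`, and `s = (l₀ - 1/2)/2` (`s < l₀` and `s + 1/2 < l₀`). -/
def PckStmt : Prop :=
  ∀ (F : ℝ → ℝ) (x r : ℝ), ContinuousOn F (Icc 0 1) → ConcaveOn ℝ (Icc 0 1) F →
    1 / 2 ≤ x → x < 1 →
    (∃ s, 0 < s ∧ s < x ∧ F s < r ∧ (s + x ≤ 1 → F (s + x) < r)) ∨
    (∃ l, 0 ≤ l ∧ l + x ≤ 1 ∧ ∀ t ∈ Icc l (l + x), r ≤ F t)

/-- **WIN** (easy-medium, no hypotheses).  Two windows.
PROOF.  `{F ≥ ρ}` and `{F ≥ β}` are intervals (concavity). `{F ≥ ρ}` contains `[l₁, l₁ + 1/2]` and `t`: `l' = l₁` if `t ∈ [l₁, l₁ + 1/2]`, `l' = t` if `t < l₁`, `l' = t - 1/2` if `t > l₁ + 1/2`. `{F ≥ β}` contains `[l₂, l₂ + x]` and `[l', l' + 1/2]`: `l'' = l₂` if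
`[l', l' + 1/2] ⊆ [l₂, l₂ + x]`, `l'' = l'` if `l' < l₂`, `l'' = l' + 1/2 - x` if `l' + 1/2 > l₂ + x`. -/
def WinStmt : Prop :=
  ∀ (F : ℝ → ℝ) (x β ρ l₁ l₂ t : ℝ), ConcaveOn ℝ (Icc 0 1) F → 1 / 2 ≤ x → β ≤ ρ →
    0 ≤ l₁ → l₁ + 1 / 2 ≤ 1 → (∀ u ∈ Icc l₁ (l₁ + 1 / 2), ρ ≤ F u) →
    0 ≤ l₂ → l₂ + x ≤ 1 → (∀ u ∈ Icc l₂ (l₂ + x), β ≤ F u) → t ∈ Icc (0 : ℝ) 1 → ρ ≤ F t →
    ∃ l' l'' : ℝ, 0 ≤ l'' ∧ l'' ≤ l' ∧ l' ≤ t ∧ t ≤ l' + 1 / 2 ∧ l' + 1 / 2 ≤ l'' + x ∧ l'' + x ≤ 1 ∧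
      β ≤ F l'' ∧ ρ ≤ F l' ∧ ρ ≤ F (l' + 1 / 2) ∧ β ≤ F (l'' + x)

/-- **OVA** (easy-medium, uses MAS PCK WIN).  A window of length `18/25` at the level `sqrt (25/27)` is impossible.
PROOF.  Let `ρ^2 = 4/3`, `β^2 = 25/27`, `ρ β = 10/9`. If there were one: WIN with `t = l₁`, and MAS with `m = ρ`: mass `≥ 2/3 + (11/50) (4/3 + 10/9 + 25/27)/3 + (7/25)(25/27)/3 = 1.000247 > 1`. -/
def OvaStmt : Prop :=
  ∀ F : ℝ → ℝ, ContinuousOn F (Icc 0 1) → ConcaveOn ℝ (Icc 0 1) F → (∀ t ∈ Icc (0 : ℝ) 1, 0 ≤ F t) →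
    ∫ t in (0 : ℝ)..1, F t ^ 2 = 1 → ∀ l₁ : ℝ, 0 ≤ l₁ → l₁ + 1 / 2 ≤ 1 →
    (∀ u ∈ Icc l₁ (l₁ + 1 / 2), Real.sqrt (4 / 3) ≤ F u) →
    ∃ s, 0 < s ∧ s < 18 / 25 ∧ F s < Real.sqrt (25 / 27) ∧
      (s + 18 / 25 ≤ 1 → F (s + 18 / 25) < Real.sqrt (25 / 27))

/-- **OVB** (medium, uses MAS TBD WIN).  The fourth moment.
PROOF.  `ρ = sqrt (4/3) = 1.1547005..`. Every `t ∈ [0,1]` has `F t < 1.338`: otherwise (`F t ≥ ρ`) WIN with `x = 1/2`, `β = ρ`, `l₂ = l₁`, and MAS with `m = 1.338`, `β = ρ`, `x = 1/2`: mass `≥ (m^2 + m ρ + ρ^2)/6 + ρ^2/6 = (m^2 + m ρ + 8/3)/6 > 1` (`m^2 + m ρ ≥ 3.3352`).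
TBD with `x = 1/2`, `β = ρ`, `l'' = l' = l₁`, `M = 1.338`: `∫ F^4 ≤ (16/9)(3/5) + (M^2 + 4/3)/9 ≤ 1.06667 + 0.34707 ≤ 1.4138`. -/
def OvbStmt : Prop :=
  ∀ F : ℝ → ℝ, ContinuousOn F (Icc 0 1) → ConcaveOn ℝ (Icc 0 1) F → (∀ t ∈ Icc (0 : ℝ) 1, 0 ≤ F t) →
    ∫ t in (0 : ℝ)..1, F t ^ 2 = 1 → ∀ l₁ : ℝ, 0 ≤ l₁ → l₁ + 1 / 2 ≤ 1 →
    (∀ u ∈ Icc l₁ (l₁ + 1 / 2), Real.sqrt (4 / 3) ≤ F u) → ∫ t in (0 : ℝ)..1, F t ^ 4 ≤ 7069 / 5000

/-- **OVC** (medium, uses MAS TBD WIN).  A window of length `13/20` at the level `sqrt (40/39)` bounds the fourth moment.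
PROOF.  `ρ = sqrt (4/3)`, `β^2 = 40/39`, `ρ β = sqrt (160/117) = 1.16941..`. With `ε = 1 - (2/3 + (3/20)(4/3 + ρ β + 40/39)/3 + (7/20)(40/39)/3) ≤ 0.03726`: every `t ∈ [0,1]` has `F t < 1.2183`: otherwise WIN with `x = 13/20`, and MAS with `m = 1.2183`: mass
`≥ (m^2 + m ρ + 4/3)/6 + (1 - ε - 2/3) > 1`, since `m^2 + m ρ ≥ 2.89102 > 8/3 + 6 ε = 2.89023`. TBD with `x = 13/20` and `M = 1.2183`: `∫ F^4 ≤ 8/9 + (3/100)(16/9 + (4/3) ρ β + 160/117 + (40/39) ρ β + 1600/1521) + (7/100)(1600/1521) + (M^2 + 4/3) ε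
≤ 0.88889 + 0.20868 + 0.07364 + 2.81759 * 0.03726 ≤ 1.2763`. -/
def OvcStmt : Prop :=
  ∀ F : ℝ → ℝ, ContinuousOn F (Icc 0 1) → ConcaveOn ℝ (Icc 0 1) F → (∀ t ∈ Icc (0 : ℝ) 1, 0 ≤ F t) →
    ∫ t in (0 : ℝ)..1, F t ^ 2 = 1 → ∀ l₁ l₂ : ℝ, 0 ≤ l₁ → l₁ + 1 / 2 ≤ 1 →
    (∀ u ∈ Icc l₁ (l₁ + 1 / 2), Real.sqrt (4 / 3) ≤ F u) → 0 ≤ l₂ → l₂ + 13 / 20 ≤ 1 →
    (∀ u ∈ Icc l₂ (l₂ + 13 / 20), Real.sqrt (40 / 39) ≤ F u) →
    ∫ t in (0 : ℝ)..1, F t ^ 4 ≤ 12765 / 10000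

/-- **ONE** (easy-medium, uses BER PCK OVA OVB OVC).  The one variable theorem.
PROOF.  `T = ∫ F^4`, `κ = 5/(4 sqrt 3) ≤ 0.72169`. PCK with `x = 1/2`, `r = sqrt (4/3)`. First alternative: `y = 4/3`, `κ T ≤ (9/5) κ ≤ 1.2991 ≤ 4/3` (BER). Second alternative: a window `[l₁, l₁ + 1/2]`. If `κ T ≤ 25/27`: OVA, `x = 18/25`, `y = 25/27`. Otherwise `T ≥ 1.283 > 1.2765`, so
by OVC there is no window of length `13/20` at the level `sqrt (40/39)`, and PCK gives `s`: `x = 13/20`, `y = 40/39`, `κ T ≤ 0.72169 * 1.4138 ≤ 1.0204 ≤ 40/39` (OVB). (`F s < sqrt y` and `F s ≥ 0` give `F s ^ 2 < y`.) -/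
def OneStmt : Prop :=
  ∀ F : ℝ → ℝ, ContinuousOn F (Icc 0 1) → ConcaveOn ℝ (Icc 0 1) F → (∀ t ∈ Icc (0 : ℝ) 1, 0 ≤ F t) →
    ∫ t in (0 : ℝ)..1, F t ^ 2 = 1 →
    ∃ x y s : ℝ, 1 / 2 ≤ x ∧ x < 1 ∧ 0 < y ∧ x * y = 2 / 3 ∧ 0 < s ∧ s < x ∧
      5 / (4 * Real.sqrt 3) * ∫ t in (0 : ℝ)..1, F t ^ 4 ≤ y ∧ F s ^ 2 < y ∧
      (s + x ≤ 1 → F (s + x) ^ 2 < y)

/-! ### Block D: the body -/

/-- **STG** (medium, no hypotheses; import the proved row AVD of UL3, `Pool.Agent.Helper39_UL3.AVD`).  Stacking.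
PROOF.  AVD for the compact sets `sec K s` and `sec K (s + p)`: `x₁`, `x₂` such that `x₁ + m a + n b ∉ sec K s`, `x₂ + m a + n b ∉ sec K (s + p)` for all `m, n`. `v = ![up a 0, up b 0, up (x₂ - x₁) p]`, `z = up x₁ s`. `2 ∑ n_i v_i` has third coordinate `2 p n_2`: for
`n_2 ≠ 0` its absolute value is `≥ 2 p ≥ w`, but the heights of two interior points of `K` differ by less than `w` (interior points have heights in `(0, w)`: move a little up and down); for `n_2 = 0` use the hypothesis. `z + ∑ n_i v_i = up (x₁ + n_0 a + n_1 b + n_2 (x₂ - x₁)) (s + n_2 p)`: for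
`n_2 = 0` not in `K` (choice of `x₁`), `n_2 = 1` not in `K` (choice of `x₂`), `n_2 ≤ -1`: height `≤ s - p < 0`; `n_2 ≥ 2`: height `≥ s + 2 p > w`. `dt v = |cr a b * p|` (`Matrix.det_fin_three`). -/
def StgStmt : Prop :=
  ∀ (K : Set E3) (w : ℝ), CB K → Ht K w → ∀ (a b : ℝ × ℝ) (p s : ℝ), 0 < cr a b →
    (∀ m n : ℤ, (m ≠ 0 ∨ n ≠ 0) → Disjoint (interior K)
      ((fun x => x + up ((2 : ℝ) • ((m : ℝ) • a + (n : ℝ) • b)) 0) '' interior K)) →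
    w ≤ 2 * p → 0 < s → s < p → al K s < cr a b → al K (s + p) < cr a b →
    ∃ (v : Fin 3 → E3) (z : E3), 0 < dt v ∧
      (∀ n : Fin 3 → ℤ, n ≠ 0 → Disjoint (interior K)
        ((fun x => x + (2 : ℝ) • ∑ i, (n i : ℝ) • v i) '' interior K)) ∧
      (∀ n : Fin 3 → ℤ, z + ∑ i, (n i : ℝ) • v i ∉ interior K) ∧ dt v = cr a b * p

/-- **GDB** (medium, uses SCG CCG CNG RSC DFC DSJ ONE STG; import the proved rows PLN and FUB of UL3: `H23.pln H77.paa (H3.pab H77.paa) H75.pac`, `H34.fub`).  A body in the standard position is good.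
PROOF.  `V = V K`, `F τ = sqrt (w * al K (w τ) / V)` on `[0,1]`: continuous and concave (CNG, CCG), `∫_0^1 F^2 = 1` (FUB with `g = 1`: `∫ al K = V`, support in `[0,w]`), `∫_0^1 F^4 = w/V^2 * ∫ (al K)^2`. ONE: `x, y, s`. `G = y V/w`. PLN for `hdif K` (DFC): `a, b` with
`Adm2` and `2 sqrt 3 * cr a b ≤ ar (hdif K) = ar (dif K)/4 ≤ (10/4) ∫ (al K)^2 / V = (10/4) (V/w) ∫ F^4` (RSC), so `cr a b ≤ (5/(4 sqrt 3)) (∫ F^4) V/w ≤ G`. Multiply both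
`a` and `b` by `c = sqrt (G/cr a b) ≥ 1`: `Adm2` is preserved (if `c q` is interior in the symmetric convex set `hdif K`, so is `q`, between `c q` and the interior point `0`), `cr = G`. DSJ, STG with `p = x w`, `s' = s w`: `al K (s w) < G` since `F s ^ 2 < y`, `al K (s w + x w) < G`
since `F (s + x)^2 < y` or `s + x > 1` and the section is empty (`al = 0`). `dt v = G x w = x y V = (2/3) V`. -/
def GdbStmt : Prop := ∀ (K : Set E3) (w : ℝ), CB K → Ht K w → Good2 K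

/-- **LPG** (medium, no hypotheses; copy `Pool.Agent.Helper88_UL3.LPD`).  The density of the double lattice packing.
PROOF.  Index the copies by `(Fin 3 → ℤ) × Bool`: `x ↦ x + 2 ∑ n_i v_i` and `x ↦ 2 z + 2 ∑ n_i v_i - x`. Disjoint interiors: two copies of the first kind by hypothesis (translate), two of the second kind: the reflected situation; first and second kind: if `x = 2 z + 2 λ - y` with
`x, y` interior in `K` (after translation), then `z + λ = (x + y)/2` is an interior point of `K` (convexity), contradiction. Density: as in row LPD of UL3, with the two copies in every cell: `2 V K/(8 dt v)`. -/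
def LpgStmt : Prop :=
  ∀ (K : Set E3) (v : Fin 3 → E3) (z : E3), IsCompact K → Convex ℝ K → (interior K).Nonempty →
    0 < dt v →
    (∀ n : Fin 3 → ℤ, n ≠ 0 → Disjoint (interior K)
      ((fun x => x + (2 : ℝ) • ∑ i, (n i : ℝ) • v i) '' interior K)) →
    (∀ n : Fin 3 → ℤ, z + ∑ i, (n i : ℝ) • v i ∉ interior K) →
    ∃ f : ℕ → (E3 ≃ᵢ E3),
      (∀ i : ℕ, (∃ c : E3, ∀ x, f i x = x + c) ∨ ∃ c : E3, ∀ x, f i x = c - x) ∧
      (∀ i j : ℕ, i ≠ j → Disjoint (interior ((f i) '' K)) (interior ((f j) '' K))) ∧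
      ENNReal.ofReal (V K / (4 * dt v)) ≤ Filter.limsup
        (fun R : ℝ => volume ((⋃ i : ℕ, (f i) '' K) ∩ Metric.ball (0 : E3) R) /
          volume (Metric.ball (0 : E3) R)) Filter.atTop

end Pool.Agent.UL4
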