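import Pool.Agent.UL3.Defs

/-!
# Squad UL4 (MP_c7c9bf_co): packings of arbitrary convex bodies in 3-space

THEOREM. Every convex body in 3-space has a packing by translates of `K` and `-K`, of density at least
`3 / 8`.

All rows: file `Pool/Agent/HelperNN_UL4/XXX.lean`, import the file of the statement, namespace
`Pool.Agent.UL4.HNN`, theorem `xxx (hypotheses = the statements of the column uses, in this order) : XxxStmt`.
-/

set_option autoImplicit false

namespace Pool.Agent.UL4

open MeasureTheory Set Pool.Agent.UL3

/-- a convex body -/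
structure CB (K : Set E3) : Prop where
  cpt : IsCompact K
  cvx : Convex ℝ K
  int : (interior K).Nonempty

/-- the heights of the points of `K` fill `[0, w]` -/
structure Ht (K : Set E3) (w : ℝ) : Prop where
  pos : 0 < w
  rng : ∀ x ∈ K, 0 ≤ x 2 ∧ x 2 ≤ w
  bot : ∃ x ∈ K, x 2 = 0
  top : ∃ x ∈ K, x 2 = w

/-- the interior of `K` is disjoint from its translates by twice the lattice of `v`, the point `z` is in no
translate of the interior of `K` by the lattice, and the determinant of the lattice is at most `(2/3) V`
(then the translates of `K` by twice the lattice, together with those of `2 z - K`, are a packing of density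
`V / (4 dt v)`, at least `3 / 8`) -/
def Good2 (K : Set E3) : Prop :=
  ∃ (v : Fin 3 → E3) (z : E3), 0 < dt v ∧
    (∀ n : Fin 3 → ℤ, n ≠ 0 → Disjoint (interior K)
      ((fun x => x + (2 : ℝ) • ∑ i, (n i : ℝ) • v i) '' interior K)) ∧
    (∀ n : Fin 3 → ℤ, z + ∑ i, (n i : ℝ) • v i ∉ interior K) ∧
    dt v ≤ 2 / 3 * V K

/-- the horizontal section, at height `0`, of the difference body of `K` -/
def dif (K : Set E3) : Set (ℝ × ℝ) := {p | ∃ x ∈ K, x - up p 0 ∈ K}

/-- half of `dif K` -/
def hdif (K : Set E3) : Set (ℝ × ℝ) := {p | (2 : ℝ) • p ∈ dif K}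

/-- the area of the section -/
noncomputable def ar (M : Set (ℝ × ℝ)) : ℝ := (volume : Measure (ℝ × ℝ)).real M

end Pool.Agent.UL4
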